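import Pool.Agent.U41.PH.Stm

/-!
Project PH (helper41), package FA2: the counting at the end.
-/

set_option autoImplicit false

namespace Pool.Agent.U41.PH

open MvPolynomial

namespace FA2

theorem card_box (k H : ℕ) : (box k H).card = (2 * H + 1) ^ k := by
  rw [box, Fintype.card_piFinset]
  simp only [Int.card_Icc, Finset.prod_const, Finset.card_univ, Fintype.card_fin]
  congr 1
  omega

open scoped Classical in
/-- the points of the box with the property `Q` -/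
noncomputable def flt (k H : ℕ) (Q : (Fin k → ℤ) → Prop) : Finset (Fin k → ℤ) :=
  (box k H).filter Q

theorem mem_flt {k H : ℕ} {Q : (Fin k → ℤ) → Prop} {x : Fin k → ℤ} :
    x ∈ flt k H Q ↔ x ∈ box k H ∧ Q x := by
  classical
  exact Finset.mem_filter

theorem cnt_eq (k H : ℕ) (Q : (Fin k → ℤ) → Prop) : cnt k H Q = (flt k H Q).card := rfl

theorem cnt_or (k H : ℕ) (P Q : (Fin k → ℤ) → Prop) :
    cnt k H (fun x => P x ∨ Q x) ≤ cnt k H P + cnt k H Q := by
  classical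
  rw [cnt_eq, cnt_eq, cnt_eq]
  refine le_trans (Finset.card_le_card ?_) (Finset.card_union_le _ _)
  intro x hx
  obtain ⟨h1, h2⟩ := mem_flt.mp hx
  rw [Finset.mem_union]
  rcases h2 with h | h
  · exact Or.inl (mem_flt.mpr ⟨h1, h⟩)
  · exact Or.inr (mem_flt.mpr ⟨h1, h⟩)

theorem cnt_mono (k H : ℕ) {P Q : (Fin k → ℤ) → Prop} (h : ∀ x ∈ box k H, P x → Q x) :
    cnt k H P ≤ cnt k H Q := by
  rw [cnt_eq, cnt_eq]
  refine Finset.card_le_card fun x hx => ?_
  rw [mem_flt] at hx ⊢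
  exact ⟨hx.1, h x hx.1 hx.2⟩

theorem cnt_true (k H : ℕ) : cnt k H (fun _ => True) = (2 * H + 1) ^ k := by
  rw [← card_box, cnt_eq]
  congr 1
  ext x
  exact ⟨fun h => (mem_flt.mp h).1, fun h => mem_flt.mpr ⟨h, trivial⟩⟩

theorem cnt_exists {r : ℕ} (k H : ℕ) (P : Fin r → (Fin k → ℤ) → Prop) :
    cnt k H (fun x => ∃ j, P j x) ≤ ∑ j, cnt k H (P j) := by
  classical
  rw [cnt_eq]
  refine le_trans (Finset.card_le_card (t := Finset.univ.biUnion fun j => flt k H (P j)) ?_)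
    Finset.card_biUnion_le
  intro x hx
  obtain ⟨hx1, j, hj⟩ := mem_flt.mp hx
  rw [Finset.mem_biUnion]
  exact ⟨j, Finset.mem_univ j, mem_flt.mpr ⟨hx1, hj⟩⟩

theorem cnt_inj (k H H' M : ℕ) (hM : M ≠ 0) (b : Fin k → ℤ) (B : ℕ) (hb : ∀ i, |b i| ≤ B)
    (hH : B + M * H' ≤ H) (Q : (Fin k → ℤ) → Prop) :
    cnt k H' (fun y => Q (pt M b y)) ≤ cnt k H Q := by
  rw [cnt_eq, cnt_eq]
  refine Finset.card_le_card_of_injOn (fun y => pt M b y) ?_ ?_
  · intro y hy
    rw [Finset.mem_coe, mem_flt] at hy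
    rw [Finset.mem_coe, mem_flt]
    refine ⟨?_, hy.2⟩
    rw [box, Fintype.mem_piFinset]
    have h1 := hy.1
    rw [box, Fintype.mem_piFinset] at h1
    intro i
    have h2 := h1 i
    rw [Finset.mem_Icc] at h2 ⊢
    have h3 := abs_le.mp (hb i)
    have h4 : (B : ℤ) + M * H' ≤ H := by exact_mod_cast hH
    have h5 : (0 : ℤ) ≤ M := by positivity
    have h6 : (M : ℤ) * y i ≤ M * H' := mul_le_mul_of_nonneg_left h2.2 h5
    have h7 : (M : ℤ) * (-(H' : ℤ)) ≤ M * y i := mul_le_mul_of_nonneg_left h2.1 h5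
    rw [mul_neg] at h7
    unfold pt
    constructor <;> linarith [h3.1, h3.2]
  · intro y _ z _ hyz
    funext i
    have h1 := congrFun hyz i
    simp only [pt] at h1
    have h2 : (M : ℤ) ≠ 0 := by exact_mod_cast hM
    exact mul_left_cancel₀ h2 (add_left_cancel h1)

theorem count (hC3 : S_C3) {k r : ℕ} (P : Fin r → ℕ → (Fin (k + 1) → ℤ) → Prop)
    (hT : ∀ j, Tail (k + 1) (P j)) (E : MvPolynomial (Fin (k + 1)) ℤ) (hE : E ≠ 0)
    (b : Fin (k + 1) → ℤ) (Y1 : ℕ) (Good : (Fin (k + 1) → ℤ) → Prop)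
    (hM : ∀ Y ≥ Y1, ∃ M : ℕ, Sm M Y ∧ ∀ y, eval (pt M b y) E ≠ 0 →
      (∀ j p, p.Prime → Y < p → ¬ P j p (pt M b y)) → Good (pt M b y)) :
    ∃ δ : ℝ, 0 < δ ∧ ∃ H₀ : ℕ, ∀ H ≥ H₀, δ * (2 * (H : ℝ) + 1) ^ (k + 1) ≤
      cnt (k + 1) H Good := by
  classical
  have hr : (0 : ℝ) < 1 / (4 * ((r : ℝ) + 1)) := by positivity
  choose Y0 hY0 using fun j => hT j _ hr
  set Y : ℕ := Y1 + ∑ j, Y0 j with hYdef
  have hY1 : Y1 ≤ Y := Nat.le_add_right _ _
  have hYj : ∀ j, Y0 j ≤ Y := fun j => by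
    have := Finset.single_le_sum (f := Y0) (fun i _ => Nat.zero_le _) (Finset.mem_univ j)
    omega
  obtain ⟨M, hMS, hgood⟩ := hM Y hY1
  have hM0 : M ≠ 0 := hMS.1
  choose Hj hHj using fun j => hY0 j Y (hYj j) M b hMS
  set H1 : ℕ := (∑ j, Hj j) + 4 * E.totalDegree with hH1
  have hH1j : ∀ j, Hj j ≤ H1 := fun j => by
    have := Finset.single_le_sum (f := Hj) (fun i _ => Nat.zero_le _) (Finset.mem_univ j)
    omega
  obtain ⟨B, hB⟩ : ∃ B : ℕ, ∀ i, |b i| ≤ B := by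
    refine ⟨∑ i, (b i).natAbs, fun i => ?_⟩
    have h1 : (b i).natAbs ≤ ∑ i, (b i).natAbs :=
      Finset.single_le_sum (f := fun i => (b i).natAbs) (fun i _ => Nat.zero_le _)
        (Finset.mem_univ i)
    rw [Int.abs_eq_natAbs]
    exact_mod_cast h1
  -- the number of good points in the small box
  have key : ∀ H' ≥ H1, (1 / 2 : ℝ) * (2 * (H' : ℝ) + 1) ^ (k + 1) ≤
      cnt (k + 1) H' (fun y => Good (pt M b y)) := by
    intro H' hH'
    have e1 : cnt (k + 1) H' (fun _ => True) ≤ cnt (k + 1) H' (fun y => Good (pt M b y)) +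
        (cnt (k + 1) H' (fun y => eval (pt M b y) E = 0) +
          ∑ j, cnt (k + 1) H' (fun y => ∃ p : ℕ, p.Prime ∧ Y < p ∧ P j p (pt M b y))) := by
      refine le_trans (cnt_mono _ _ (Q := fun y => Good (pt M b y) ∨ (eval (pt M b y) E = 0 ∨
        ∃ j, ∃ p : ℕ, p.Prime ∧ Y < p ∧ P j p (pt M b y))) ?_) ?_
      · intro y _ _
        by_cases h1 : eval (pt M b y) E = 0
        · exact Or.inr (Or.inl h1)
        by_cases h2 : ∃ j, ∃ p : ℕ, p.Prime ∧ Y < p ∧ P j p (pt M b y)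
        · exact Or.inr (Or.inr h2)
        · refine Or.inl (hgood y h1 fun j p hp hYp hP => h2 ⟨j, p, hp, hYp, hP⟩)
      · refine (cnt_or _ _ _ _).trans (Nat.add_le_add_left ((cnt_or _ _ _ _).trans
          (Nat.add_le_add_left (cnt_exists _ _ _) _)) _)
    rw [cnt_true] at e1
    have e2 : ((2 * (H' : ℝ) + 1) ^ (k + 1)) ≤ (cnt (k + 1) H' (fun y => Good (pt M b y)) : ℝ) +
        ((cnt (k + 1) H' (fun y => eval (pt M b y) E = 0) : ℝ) +
          ∑ j, (cnt (k + 1) H' (fun y => ∃ p : ℕ, p.Prime ∧ Y < p ∧ P j p (pt M b y)) : ℝ)) := by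
      exact_mod_cast e1
    have e3 := hC3 (k + 1) E M b H' hM0 hE
    rw [Nat.add_sub_cancel] at e3
    have e4 : ∑ j, (cnt (k + 1) H' (fun y => ∃ p : ℕ, p.Prime ∧ Y < p ∧
        P j p (pt M b y)) : ℝ) ≤ ∑ _j : Fin r, 1 / (4 * ((r : ℝ) + 1)) *
          (2 * (H' : ℝ) + 1) ^ (k + 1) :=
      Finset.sum_le_sum fun j _ => hHj j H' ((hH1j j).trans hH')
    rw [Finset.sum_const, Finset.card_univ, Fintype.card_fin, nsmul_eq_mul] at e4
    have hpos : (0 : ℝ) < 2 * (H' : ℝ) + 1 := by positivity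
    have e5 : (r : ℝ) * (1 / (4 * ((r : ℝ) + 1)) * (2 * (H' : ℝ) + 1) ^ (k + 1)) ≤
        1 / 4 * (2 * (H' : ℝ) + 1) ^ (k + 1) := by
      rw [← mul_assoc]
      refine mul_le_mul_of_nonneg_right ?_ (by positivity)
      rw [mul_one_div, div_le_div_iff₀ (by positivity) (by norm_num)]
      linarith
    have e6 : 2 * (E.totalDegree : ℝ) * (2 * (H' : ℝ) + 1) ^ k ≤
        1 / 4 * (2 * (H' : ℝ) + 1) ^ (k + 1) := by
      rw [pow_succ' (2 * (H' : ℝ) + 1) k, ← mul_assoc]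
      refine mul_le_mul_of_nonneg_right ?_ (by positivity)
      have : ((4 * E.totalDegree : ℕ) : ℝ) ≤ H' := by
        have h1 : 4 * E.totalDegree ≤ H' := by omega
        exact_mod_cast h1
      push_cast at this
      linarith
    linarith
  -- the large box
  have hMr : (0 : ℝ) < M := by exact_mod_cast Nat.pos_of_ne_zero hM0
  refine ⟨1 / 2 * (1 / (4 * (M : ℝ))) ^ (k + 1), by positivity, B + M * H1 + 2 * B + M, ?_⟩
  intro H hH
  set H' : ℕ := (H - B) / M with hH'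
  have f1 : M * H' ≤ H - B := Nat.mul_div_le _ _
  have f2 : H - B < M * (H' + 1) := Nat.lt_mul_div_succ _ (Nat.pos_of_ne_zero hM0)
  have f3 : H1 ≤ H' := by
    rw [hH', Nat.le_div_iff_mul_le (Nat.pos_of_ne_zero hM0), mul_comm]
    omega
  have f4 : B + M * H' ≤ H := by omega
  have f5 := cnt_inj (k + 1) H H' M hM0 b B hB f4 Good
  have f6 : (cnt (k + 1) H' (fun y => Good (pt M b y)) : ℝ) ≤ cnt (k + 1) H Good := by
    exact_mod_cast f5
  refine le_trans ?_ ((key H' f3).trans f6)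
  rw [mul_assoc, ← mul_pow]
  refine mul_le_mul_of_nonneg_left ?_ (by norm_num)
  refine pow_le_pow_left₀ (by positivity) ?_ _
  rw [one_div, inv_mul_le_iff₀ (by positivity)]
  have f7 : (H : ℝ) - B < M * ((H' : ℝ) + 1) := by
    have h1 : H < M * (H' + 1) + B := by omega
    have h2 : (H : ℝ) < (M : ℝ) * ((H' : ℝ) + 1) + B := by exact_mod_cast h1
    linarith
  have f8 : (2 * B + M : ℝ) ≤ H := by
    have h1 : 2 * B + M ≤ H := by omega
    exact_mod_cast h1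
  have f9 : (1 : ℝ) ≤ M := by exact_mod_cast Nat.one_le_iff_ne_zero.mpr hM0
  have f10 : 4 * (M : ℝ) * (2 * (H' : ℝ) + 1) = 8 * (M * ((H' : ℝ) + 1)) - 4 * M := by ring
  have f11 : (0 : ℝ) ≤ B := Nat.cast_nonneg _
  rw [f10]
  linarith

end FA2

open Pool.Agent.H918R2.Quad Pool.Agent.TH214.RM Pool.Agent.U41.OD

namespace FA2

theorem locAt_of_or {O K : Type} [CommRing O] [Field K] [Algebra O K] {n : ℕ} (𝔭 : Ideal O)
    (H : MvPolynomial (Fin (n + 2)) O) (h : Crit 𝔭 H ∨ Node 𝔭 H) :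
    LocAt 𝔭 (map (algebraMap O K) H) := by
  refine ⟨H, 1, 1, 1, one_ne_zero, mul_one 1, ?_, h⟩
  have h1 : (fun i => ∑ j, C ((1 : Matrix (Fin (n + 2)) (Fin (n + 2)) K) i j) *
      (X j : MvPolynomial (Fin (n + 2)) K)) = X := by
    funext i
    simp only [Matrix.one_apply]
    rw [Finset.sum_eq_single i]
    · simp
    · intro j _ hj
      rw [if_neg (Ne.symm hj), C_0, zero_mul]
    · intro h
      exact absurd (Finset.mem_univ _) h
  rw [h1, aeval_X_left_apply, C_1, one_mul]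

theorem spec_pt {n d k : ℕ} (ex : Fin k ≃ Idx n d) (M : ℕ) (b y : Fin (k + 1) → ℤ) :
    spec ex (pt M b y) - spec ex b = C (M : ℤ) * spec ex y := by
  unfold spec member form pt
  rw [mul_add, Finset.mul_sum]
  have h1 : ∀ i : Fin k, (monomial (ex i).1 (b i.succ + M * y i.succ) :
      MvPolynomial (Fin (n + 2)) ℤ) = monomial (ex i).1 (b i.succ) +
        C (M : ℤ) * monomial (ex i).1 (y i.succ) := by
    intro i
    rw [map_add, C_mul_monomial]
  rw [Finset.sum_congr rfl fun i _ => h1 i, Finset.sum_add_distrib, C_add, C_mul]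
  ring

theorem prime_ideal {𝔭 : Ideal ℤ} (h1 : 𝔭.IsPrime) (h0 : 𝔭 ≠ ⊥) :
    ∃ p : ℕ, p.Prime ∧ 𝔭 = Ideal.span {(p : ℤ)} := by
  have h2 : Prime (Submodule.IsPrincipal.generator 𝔭) :=
    Submodule.IsPrincipal.prime_generator_of_isPrime 𝔭 h0
  refine ⟨(Submodule.IsPrincipal.generator 𝔭).natAbs, Int.prime_iff_natAbs_prime.mp h2, ?_⟩
  rw [Int.span_natAbs, Ideal.span_singleton_generator]

end FA2

open FA2 in
/-- **Package FA2**: the counting at the end. -/
theorem FA2_ok : S_FA2 := by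
  classical
  intro hFA1 hS' hC3 hPS hBP n d k ex hd
  obtain ⟨r, h, W, E, e, hE, he, hirr, hx⟩ := hFA1 ex hd
  obtain ⟨b, hb⟩ := hBP ex hd
  refine count hC3 (fun j p x => (p : ℤ) ∣ eval x (rename Fin.succ (h j)) ∧ (p : ℤ) ∣ eval x (W j))
    (fun j => hS' k (h j) (W j) (hirr j).1 (hirr j).2) E hE b e.natAbs _ ?_
  intro Y hY
  -- the exponents
  have h1 : ∀ p : ℕ, ∃ ρ : ℕ, p.Prime → ∀ H' : MvPolynomial (Fin (n + 2)) ℤ,
      (∀ m, coeff m (H' - spec ex b) ∈ (Ideal.span {(p : ℤ)}) ^ ρ) →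
        (Crit (Ideal.span {(p : ℤ)}) H' ∨ Node (Ideal.span {(p : ℤ)}) H') := by
    intro p
    by_cases hp : p.Prime
    · have hp0 : (Ideal.span {(p : ℤ)}).IsPrime :=
        (Ideal.span_singleton_prime (by exact_mod_cast hp.ne_zero)).mpr
          (Nat.prime_iff_prime_int.mp hp)
      have hp1 : (Ideal.span {(p : ℤ)}) ≠ ⊥ := by
        rw [Ne, Ideal.span_singleton_eq_bot]
        exact_mod_cast hp.ne_zero
      obtain ⟨ρ, hρ⟩ := hPS (spec ex b) (Ideal.span {(p : ℤ)}) hp0 hp1 (Or.inl (hb p hp))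
      exact ⟨ρ, fun _ => hρ⟩
    · exact ⟨0, fun h => absurd h hp⟩
  choose ρ hρ using h1
  set S : Finset ℕ := (Finset.range (Y + 1)).filter Nat.Prime with hSdef
  refine ⟨∏ p ∈ S, p ^ ρ p, ⟨?_, ?_⟩, ?_⟩
  · rw [Finset.prod_ne_zero_iff]
    intro p hp
    exact pow_ne_zero _ (Finset.mem_filter.mp hp).2.ne_zero
  · intro q hq hqd
    obtain ⟨p, hp, hqp⟩ := (hq.prime.dvd_finsetProd_iff _).mp hqd
    have h2 := (Nat.prime_dvd_prime_iff_eq hq (Finset.mem_filter.mp hp).2).mp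
      (hq.dvd_of_dvd_pow hqp)
    have h3 := Finset.mem_range.mp (Finset.mem_filter.mp hp).1
    omega
  · intro y hy hgood
    set M : ℕ := ∏ p ∈ S, p ^ ρ p with hMdef
    obtain ⟨hsm, hloc⟩ := hx (pt M b y) hy
    refine ⟨hsm, ?_⟩
    rw [locNode_iff]
    intro 𝔭 hp hp0
    obtain ⟨p, hpp, rfl⟩ := prime_ideal hp hp0
    by_cases hpY : p ≤ Y
    · apply locAt_of_or
      apply hρ p hpp
      intro m
      rw [spec_pt, coeff_C_mul]
      apply Ideal.mul_mem_right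
      rw [Ideal.span_singleton_pow, Ideal.mem_span_singleton]
      have h2 : p ^ ρ p ∣ M :=
        Finset.dvd_prod_of_mem (fun p => p ^ ρ p)
          (Finset.mem_filter.mpr ⟨Finset.mem_range.mpr (by omega), hpp⟩)
      exact_mod_cast h2
    · refine hloc p hpp ?_ fun j => hgood j p hpp (by omega)
      intro hpe
      have h2 : p ∣ e.natAbs := Int.natCast_dvd.mp hpe
      have h3 := Nat.le_of_dvd (Int.natAbs_pos.mpr he) h2
      omega

end Pool.Agent.U41.PH
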